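import Pool.Agent.Lib.MP_23961f_co.K.Cover

/-!
Weighted acyclic colourings give orthogonal configurations without stress.
-/

set_option autoImplicit false

open scoped InnerProductSpace

namespace Pool.Agent.Lib.MP_23961f_co.AC65

open Pool.Agent.Lib.MP_23961f_co.K

section

variable {V : Type*} [Fintype V]

/-- A proper colouring `c` of `G` with weights `d` such that every non-empty set `U` of vertices of
two colours `r`, `s` has a vertex of colour `r` with at most `d s` neighbours in `U`, or a vertex of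
colour `s` with at most `d r` neighbours in `U`. -/
def Acy (G : SimpleGraph V) {m : ℕ} (c : V → Fin m) (d : Fin m → ℕ) : Prop :=
  (∀ v w, G.Adj v w → c v ≠ c w) ∧
  ∀ U : Finset V, U.Nonempty → ∀ r s, r ≠ s → (∀ v ∈ U, c v = r ∨ c v = s) →
    ∃ v ∈ U, (c v = r ∧ Set.ncard {w | w ∈ U ∧ G.Adj v w} ≤ d s) ∨
      (c v = s ∧ Set.ncard {w | w ∈ U ∧ G.Adj v w} ≤ d r)

/-- the block configuration -/
noncomputable def blk {m : ℕ} (c : V → Fin m) (d : Fin m → ℕ) (x : V → ℝ) (v : V) :
    EuclideanSpace ℝ (Σ r : Fin m, Fin (d r)) :=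
  WithLp.toLp 2 (fun p => if p.1 = c v then x v ^ (p.2 : ℕ) else 0)

theorem blk_apply {m : ℕ} (c : V → Fin m) (d : Fin m → ℕ) (x : V → ℝ) (v : V)
    (p : Σ r : Fin m, Fin (d r)) :
    blk c d x v p = if p.1 = c v then x v ^ (p.2 : ℕ) else 0 := rfl

/-- Few points of a moment curve are independent. -/
theorem moment {W : Finset V} {x a : V → ℝ} (hx : Function.Injective x) {D : ℕ}
    (hW : W.card ≤ D) (h : ∀ i < D, ∑ w ∈ W, a w * x w ^ i = 0) : ∀ w ∈ W, a w = 0 := by
  classical
  intro w hw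
  let e := W.equivFin
  have h1 := Matrix.eq_zero_of_forall_pow_sum_mul_pow_eq_zero
    (f := fun j : Fin W.card => x (e.symm j)) (v := fun j => a (e.symm j)) ?_ ?_
  · have h2 := congrFun h1 (e ⟨w, hw⟩)
    simpa using h2
  · intro j j' hjj
    exact e.symm.injective (Subtype.ext (hx hjj))
  · intro i
    have h2 := h i (lt_of_lt_of_le i.2 hW)
    rw [← h2, ← Finset.sum_coe_sort W]
    exact Fintype.sum_equiv e.symm _ _ (fun j => rfl)

/-- A weighted acyclic colouring gives a configuration without stress. -/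
theorem rep_of_acy {G : SimpleGraph V} {m : ℕ} {c : V → Fin m} {d : Fin m → ℕ}
    (h : Acy G c d) : Rep G.Adj (∑ r, d r) := by
  classical
  obtain ⟨hc, hU⟩ := h
  let x : V → ℝ := fun v => ((Fintype.equivFin V v : ℕ) : ℝ)
  have hx : Function.Injective x := by
    intro v w hvw
    have h1 : (Fintype.equivFin V v : ℕ) = (Fintype.equivFin V w : ℕ) := Nat.cast_injective hvw
    exact (Fintype.equivFin V).injective (Fin.ext h1)
  have hdim : Module.finrank ℝ (EuclideanSpace ℝ (Σ r : Fin m, Fin (d r))) = ∑ r, d r := by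
    rw [finrank_euclideanSpace, Fintype.card_sigma]
    simp
  refine rep_of hdim (u := blk c d x) ?_ ?_
  · intro v w hvw
    rw [PiLp.inner_apply]
    refine Finset.sum_eq_zero fun p _ => ?_
    rw [blk_apply, blk_apply]
    have h1 := hc v w hvw
    by_cases h2 : p.1 = c v
    · have h3 : p.1 ≠ c w := fun h3 => h1 (h2.symm.trans h3)
      simp [h3]
    · simp [h2]
  · intro X hsymm hsupp hstress
    -- the relations in each block
    have hblk : ∀ v s, ∀ i < d s, ∑ w ∈ Finset.univ.filter (fun w => c w = s ∧ X v w ≠ 0),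
        X v w * x w ^ i = 0 := by
      intro v s i hi
      have h1 := congrArg (fun z : EuclideanSpace ℝ (Σ r : Fin m, Fin (d r)) =>
        z ⟨s, ⟨i, hi⟩⟩) (hstress v)
      have h2 : (∑ w, X v w • blk c d x w) ⟨s, ⟨i, hi⟩⟩ =
          ∑ w, X v w * (if s = c w then x w ^ i else 0) := by
        rw [WithLp.ofLp_sum, Finset.sum_apply]
        rfl
      simp only at h1
      rw [h2] at h1
      rw [show ((0 : EuclideanSpace ℝ (Σ r : Fin m, Fin (d r))) ⟨s, ⟨i, hi⟩⟩) = 0 from rfl] at h1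
      refine Eq.trans ?_ h1
      rw [Finset.sum_filter]
      refine Finset.sum_congr rfl fun w _ => ?_
      by_cases h3 : c w = s
      · by_cases h4 : X v w = 0
        · simp [h4]
        · rw [if_pos ⟨h3, h4⟩, if_pos h3.symm]
      · have h5 : ¬ s = c w := fun h => h3 h.symm
        rw [if_neg (fun h => h3 h.1), if_neg h5, mul_zero]
    by_contra hne
    push Not at hne
    obtain ⟨v0, w0, h0⟩ := hne
    have hadj : ∀ v w, X v w ≠ 0 → G.Adj v w := by
      intro v w h1
      by_contra h2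
      exact h1 (hsupp v w h2)
    have hrs : c v0 ≠ c w0 := hc _ _ (hadj _ _ h0)
    -- the key step
    have key : ∀ r s, r ≠ s → ∀ U : Finset V,
        (∀ v, v ∈ U ↔ (c v = r ∧ ∃ w, c w = s ∧ X v w ≠ 0) ∨
          (c v = s ∧ ∃ w, c w = r ∧ X v w ≠ 0)) →
        ∀ v ∈ U, c v = r → Set.ncard {w | w ∈ U ∧ G.Adj v w} ≤ d s → False := by
      intro r s hrs U hUdef v hv hcv hcard
      have h1 : ∃ w, c w = s ∧ X v w ≠ 0 := by
        rcases (hUdef v).1 hv with ⟨_, h2⟩ | ⟨h2, _⟩
        · exact h2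
        · exact absurd (hcv.symm.trans h2) hrs
      obtain ⟨w, hw1, hw2⟩ := h1
      have h2 : (Finset.univ.filter (fun w => c w = s ∧ X v w ≠ 0)).card ≤ d s := by
        refine le_trans ?_ hcard
        rw [← Set.ncard_coe_finset]
        refine Set.ncard_le_ncard ?_ (Set.toFinite _)
        intro w' hw'
        rw [Finset.mem_coe, Finset.mem_filter] at hw'
        obtain ⟨_, h3, h4⟩ := hw'
        refine ⟨(hUdef w').2 (Or.inr ⟨h3, v, hcv, ?_⟩), hadj _ _ h4⟩
        rw [hsymm]
        exact h4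
      exact hw2 (moment hx h2 (a := fun w => X v w) (hblk v s) w
        (Finset.mem_filter.2 ⟨Finset.mem_univ _, hw1, hw2⟩))
    let U : Finset V := Finset.univ.filter (fun v =>
      (c v = c v0 ∧ ∃ w, c w = c w0 ∧ X v w ≠ 0) ∨ (c v = c w0 ∧ ∃ w, c w = c v0 ∧ X v w ≠ 0))
    have hUdef : ∀ v, v ∈ U ↔ (c v = c v0 ∧ ∃ w, c w = c w0 ∧ X v w ≠ 0) ∨
        (c v = c w0 ∧ ∃ w, c w = c v0 ∧ X v w ≠ 0) := fun v => by simp [U]
    obtain ⟨v, hv, h1 | h1⟩ := hU U ⟨v0, (hUdef v0).2 (Or.inl ⟨rfl, w0, rfl, h0⟩)⟩ (c v0) (c w0) hrs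
      (fun v hv => by
        rcases (hUdef v).1 hv with ⟨h1, _⟩ | ⟨h1, _⟩
        · exact Or.inl h1
        · exact Or.inr h1)
    · exact key _ _ hrs U hUdef v hv h1.1 h1.2
    · exact key _ _ hrs.symm U (fun v => (hUdef v).trans or_comm) v hv h1.1 h1.2

end

end Pool.Agent.Lib.MP_23961f_co.AC65
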